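import Mathlib
import Pool.Agent.H192R2.GP.Defs

/-!
# Ramsey for pairs, with increasing homogeneous subsequences
-/

namespace Pool.Agent.H192R2.GP

variable {V : Type}

private theorem ramsey_aux (c m : ℕ) : ∃ N : ℕ, ∀ S : Finset ℕ, N ≤ S.card → ∀ col : ℕ → ℕ → ℕ,
    (∀ i ∈ S, ∀ j ∈ S, i < j → col i j < c) →
    ∃ σ d : ℕ → ℕ, (∀ i, i < m → σ i ∈ S) ∧
      (∀ i j, i < j → j < m → σ i < σ j ∧ col (σ i) (σ j) = d i) := by
  induction m with
  | zero =>
    refine ⟨0, fun S _ col _ => ⟨fun _ => 0, fun _ => 0, ?_, ?_⟩⟩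
    · intro i hi; omega
    · intro i j _ hj; omega
  | succ m ih =>
    obtain ⟨N', hN'⟩ := ih
    refine ⟨c * N' + 2, fun S hS col hcol => ?_⟩
    have hne : S.Nonempty := Finset.card_pos.1 (by omega)
    set s0 := S.min' hne with hs0
    have hs0m : s0 ∈ S := Finset.min'_mem S hne
    set S' := S.erase s0 with hS'
    have hc' : c * N' + 1 ≤ S'.card := by
      rw [hS', Finset.card_erase_of_mem hs0m]; omega
    have hlt : ∀ j ∈ S', s0 < j := by
      intro j hj
      have hj1 := Finset.mem_erase.1 hj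
      exact lt_of_le_of_ne (Finset.min'_le S j hj1.2) (Ne.symm hj1.1)
    have hmaps : ∀ j ∈ S', col s0 j ∈ Finset.range c := by
      intro j hj
      exact Finset.mem_range.2 (hcol s0 hs0m j (Finset.mem_erase.1 hj).2 (hlt j hj))
    have hcne : (Finset.range c).Nonempty := by
      have h1 : S'.Nonempty := Finset.card_pos.1 (by omega)
      obtain ⟨j, hj⟩ := h1
      exact ⟨_, hmaps j hj⟩
    obtain ⟨k, _, hk⟩ := Finset.exists_le_card_fiber_of_mul_le_card_of_maps_to (n := N')
      hmaps hcne (by rw [Finset.card_range]; omega)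
    obtain ⟨σ, d, h1, h2⟩ := hN' _ hk col (by
      intro i hi j hj hij
      have hi' := (Finset.mem_filter.1 hi).1
      have hj' := (Finset.mem_filter.1 hj).1
      exact hcol i (Finset.mem_erase.1 hi').2 j (Finset.mem_erase.1 hj').2 hij)
    refine ⟨fun i => Nat.casesOn i s0 σ, fun i => Nat.casesOn i k d, ?_, ?_⟩
    · intro i hi
      rcases i with _ | i
      · exact hs0m
      · have := (Finset.mem_filter.1 (h1 i (by omega))).1
        exact (Finset.mem_erase.1 this).2
    · intro i j hij hj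
      rcases j with _ | j
      · omega
      · rcases i with _ | i
        · have h3 := Finset.mem_filter.1 (h1 j (by omega))
          exact ⟨hlt _ h3.1, h3.2⟩
        · exact h2 i j (by omega) (by omega)

/-- Ramsey's theorem for pairs: `c` colours, an increasing homogeneous subsequence of length `n`. -/
theorem ramsey (c n : ℕ) : ∃ N : ℕ, ∀ col : ℕ → ℕ → ℕ, (∀ i j, i < j → j < N → col i j < c) →
    ∃ σ : ℕ → ℕ, (∀ i j, i < j → j < n → σ i < σ j) ∧ (∀ i, i < n → σ i < N) ∧
      ∃ k, ∀ i j, i < j → j < n → col (σ i) (σ j) = k := by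
  obtain ⟨N, hN⟩ := ramsey_aux c (c * n + 2)
  refine ⟨N, fun col hcol => ?_⟩
  obtain ⟨σ, d, h1, h2⟩ := hN (Finset.range N) (by simp) col (by
    intro i _ j hj hij
    exact hcol i j hij (Finset.mem_range.1 hj))
  have hmaps : ∀ i ∈ Finset.range (c * n + 1), d i ∈ Finset.range c := by
    intro i hi
    have hi' := Finset.mem_range.1 hi
    have h3 := h2 i (c * n + 1) hi' (by omega)
    rw [← h3.2]
    exact Finset.mem_range.2 (hcol _ _ h3.1 (Finset.mem_range.1 (h1 _ (by omega))))
  have hcne : (Finset.range c).Nonempty := ⟨_, hmaps 0 (by simp)⟩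
  obtain ⟨k, _, hk⟩ := Finset.exists_le_card_fiber_of_mul_le_card_of_maps_to (n := n)
    hmaps hcne (by rw [Finset.card_range, Finset.card_range]; omega)
  set T := (Finset.range (c * n + 1)).filter (fun i => d i = k) with hT
  set e := T.orderEmbOfFin rfl with he
  have hmem : ∀ (i : ℕ) (h : i < T.card), e ⟨i, h⟩ ∈ T := fun i h => Finset.orderEmbOfFin_mem T rfl _
  have hTlt : ∀ a ∈ T, a < c * n + 1 := fun a ha => Finset.mem_range.1 (Finset.mem_filter.1 ha).1
  have hTk : ∀ a ∈ T, d a = k := fun a ha => (Finset.mem_filter.1 ha).2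
  refine ⟨fun i => if h : i < T.card then σ (e ⟨i, h⟩) else 0, ?_, ?_, k, ?_⟩
  · intro i j hij hj
    have hj' : j < T.card := lt_of_lt_of_le hj hk
    have hi' : i < T.card := lt_trans hij hj'
    simp only [dif_pos hj', dif_pos hi']
    have h4 : e ⟨i, hi'⟩ < e ⟨j, hj'⟩ := e.strictMono (by exact hij)
    exact (h2 _ _ h4 (by have := hTlt _ (hmem j hj'); omega)).1
  · intro i hi
    have hi' : i < T.card := lt_of_lt_of_le hi hk
    simp only [dif_pos hi']
    exact Finset.mem_range.1 (h1 _ (by have := hTlt _ (hmem i hi'); omega))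
  · intro i j hij hj
    have hj' : j < T.card := lt_of_lt_of_le hj hk
    have hi' : i < T.card := lt_trans hij hj'
    simp only [dif_pos hj', dif_pos hi']
    have h4 : e ⟨i, hi'⟩ < e ⟨j, hj'⟩ := e.strictMono (by exact hij)
    rw [(h2 _ _ h4 (by have := hTlt _ (hmem j hj'); omega)).2]
    exact hTk _ (hmem i hi')

/-- a family of `N` distinct vertices contains a clique or an independent family of size `n` -/
theorem clq_or_ind (n : ℕ) : ∃ N : ℕ, ∀ {V : Type} (G : SimpleGraph V) (x : ℕ → V),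
    (∀ i j, i < N → j < N → x i = x j → i = j) →
    ∃ σ : ℕ → ℕ, (∀ i j, i < j → j < n → σ i < σ j) ∧ (∀ i, i < n → σ i < N) ∧
      (Clq G n (fun i => x (σ i)) ∨ Ind G n (fun i => x (σ i))) := by
  classical
  obtain ⟨N, hN⟩ := ramsey 2 n
  refine ⟨N, fun {V} G x hx => ?_⟩
  obtain ⟨σ, h1, h2, k, hk⟩ := hN (fun i j => if G.Adj (x i) (x j) then 1 else 0) (by
    intro i j _ _
    split_ifs <;> omega)
  refine ⟨σ, h1, h2, ?_⟩
  have hne : ∀ i j, i < n → j < n → i ≠ j → x (σ i) ≠ x (σ j) := by
    intro i j hi hj hij h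
    have h3 := hx _ _ (h2 i hi) (h2 j hj) h
    rcases lt_or_gt_of_ne hij with h4 | h4
    · have := h1 i j h4 hj; omega
    · have := h1 j i h4 hi; omega
  by_cases hk1 : k = 1
  · left
    have h3 : ∀ i j, i < j → j < n → G.Adj (x (σ i)) (x (σ j)) := by
      intro i j hij hj
      have h4 := hk i j hij hj
      by_contra h5
      simp only [if_neg h5] at h4
      omega
    intro i j hi hj hij
    rcases lt_or_gt_of_ne hij with h4 | h4
    · exact h3 i j h4 hj
    · exact (h3 j i h4 hi).symm
  · right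
    have h3 : ∀ i j, i < j → j < n → ¬ G.Adj (x (σ i)) (x (σ j)) := by
      intro i j hij hj h5
      have h4 := hk i j hij hj
      simp only [if_pos h5] at h4
      omega
    intro i j hi hj hij
    refine ⟨hne i j hi hj hij, ?_⟩
    rcases lt_or_gt_of_ne hij with h4 | h4
    · exact h3 i j h4 hj
    · exact fun h => h3 j i h4 hi h.symm

end Pool.Agent.H192R2.GP

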