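import Mathlib
import Pool.Agent.H710R2.FF.Rc
import Pool.Agent.H710R2.FF.Cay
import Pool.Agent.H710R2.GP.Defs

/-!
Reduction to finitely many free generators (task RED of helper710, project GP).
-/

set_option autoImplicit false
set_option linter.unusedSectionVars false

open MeasureTheory
open scoped ComplexConjugate InnerProductSpace

noncomputable section

namespace Pool.Agent.H710R2.GP

open Pool.Agent.H710R2.FF
open Pool.Agent.Helper278 Pool.Agent.Helper436.SN

namespace Red

/-! ### group algebras -/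

theorem mapF_single {κ ι : Type} (s : κ → ι) (g : FreeGroup κ) (c : ℂ) :
    mapF s (MonoidAlgebra.single g c) = MonoidAlgebra.single (FreeGroup.map s g) c := by
  unfold mapF
  rw [MonoidAlgebra.mapDomainAlgHom_apply, MonoidAlgebra.mapDomain_single]

theorem mapF_injective {κ ι : Type} (s : κ → ι) (hs : Function.Injective s) :
    Function.Injective (mapF s) := by
  intro a b hab
  unfold mapF at hab
  rw [MonoidAlgebra.mapDomainAlgHom_apply, MonoidAlgebra.mapDomainAlgHom_apply] at hab
  exact MonoidAlgebra.mapDomain_injective (FreeGroup.map_injective hs) hab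

section fst
variable {G : Type} [Group G]

theorem fstG_zero : fstG (0 : MonoidAlgebra ℂ G) = 0 := by
  unfold fstG
  rw [MonoidAlgebra.coeff_zero, Finsupp.sum_zero_index]

theorem fstG_add (x y : MonoidAlgebra ℂ G) : fstG (x + y) = fstG x + fstG y := by
  unfold fstG
  rw [MonoidAlgebra.coeff_add, Finsupp.sum_add_index']
  · intro g
    rw [map_zero, MonoidAlgebra.single_zero]
  · intro g a b
    rw [map_add, MonoidAlgebra.single_add]

theorem fstG_single (g : G) (c : ℂ) :
    fstG (MonoidAlgebra.single g c : MonoidAlgebra ℂ G) = MonoidAlgebra.single g⁻¹ (conj c) := by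
  unfold fstG
  rw [MonoidAlgebra.coeff_single, Finsupp.sum_single_index]
  rw [map_zero, MonoidAlgebra.single_zero]

end fst

theorem fstG_mapF {ι : Type} {M : ℕ} (s : Fin M → ι) (q : FA M) :
    fstG (mapF s q) = mapF s (fst' q) := by
  induction q using MonoidAlgebra.induction_linear with
  | zero => rw [fst'_zero, map_zero, fstG_zero]
  | add x y hx hy => rw [fst'_add, map_add, map_add, fstG_add, hx, hy]
  | single g c => rw [fst'_single, mapF_single, mapF_single, fstG_single, map_inv]

theorem mapF_fst' {ι : Type} {M : ℕ} (s : Fin M → ι) (hs : Function.Injective s) (q : FA M)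
    (hq : fstG (mapF s q) = mapF s q) : fst' q = q := by
  rw [fstG_mapF] at hq
  exact mapF_injective s hs hq

/-! ### finitely many letters -/

theorem list_lift {κ ι : Type} (s : κ → ι) (L : List (ι × Bool))
    (hL : ∀ x ∈ L, x.1 ∈ Set.range s) :
    ∃ L' : List (κ × Bool), (L'.map fun x => (s x.1, x.2)) = L := by
  induction L with
  | nil => exact ⟨[], rfl⟩
  | cons a L ih =>
    obtain ⟨L', hL'⟩ := ih fun x hx => hL x (List.mem_cons_of_mem _ hx)
    obtain ⟨k, hk⟩ := hL a List.mem_cons_self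
    refine ⟨(k, a.2) :: L', ?_⟩
    rw [List.map_cons, hL']
    show (s k, a.2) :: L = a :: L
    rw [hk]

theorem word_lift {κ ι : Type} [DecidableEq ι] (s : κ → ι) (g : FreeGroup ι)
    (hg : ∀ x ∈ g.toWord, x.1 ∈ Set.range s) : ∃ g' : FreeGroup κ, FreeGroup.map s g' = g := by
  obtain ⟨L', hL'⟩ := list_lift s g.toWord hg
  refine ⟨FreeGroup.mk L', ?_⟩
  rw [FreeGroup.map.mk, hL', FreeGroup.mk_toWord]

theorem alg_lift {κ ι : Type} [DecidableEq ι] (s : κ → ι) (q : MonoidAlgebra ℂ (FreeGroup ι))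
    (hq : ∀ g ∈ q.coeff.support, ∀ x ∈ g.toWord, x.1 ∈ Set.range s) :
    ∃ q' : MonoidAlgebra ℂ (FreeGroup κ), mapF s q' = q := by
  classical
  have h1 : ∀ g : FreeGroup ι, ∃ g' : FreeGroup κ, g ∈ q.coeff.support → FreeGroup.map s g' = g := by
    intro g
    by_cases hg : g ∈ q.coeff.support
    · obtain ⟨g', hg'⟩ := word_lift s g (hq g hg)
      exact ⟨g', fun _ => hg'⟩
    · exact ⟨1, fun h => absurd h hg⟩
  choose f hf using h1
  refine ⟨∑ g ∈ q.coeff.support, MonoidAlgebra.single (f g) (q.coeff g), ?_⟩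
  rw [map_sum]
  have h2 : ∑ g ∈ q.coeff.support, mapF s (MonoidAlgebra.single (f g) (q.coeff g)) =
      ∑ g ∈ q.coeff.support, MonoidAlgebra.single g (q.coeff g) := by
    refine Finset.sum_congr rfl fun g hg => ?_
    rw [mapF_single, hf g hg]
  rw [h2]
  exact MonoidAlgebra.sum_coeff_single q

theorem exists_finite' {ι : Type} {k m : ℕ} (e : Fin m → ι) (_he : Function.Injective e)
    (q : Fin (k + 1) → MonoidAlgebra ℂ (FreeGroup ι)) :
    ∃ (M : ℕ) (s : Fin M → ι) (e' : Fin m → Fin M) (q' : Fin (k + 1) → FA M),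
      Function.Injective s ∧ (∀ j, s (e' j) = e j) ∧ ∀ i, mapF s (q' i) = q i := by
  classical
  let S : Finset ι := Finset.univ.image e ∪
    Finset.univ.biUnion fun i : Fin (k + 1) => (q i).coeff.support.biUnion fun g =>
      (g.toWord.map Prod.fst).toFinset
  let s : Fin S.card → ι := fun j => (S.equivFin.symm j : ι)
  have hrange : ∀ x ∈ S, x ∈ Set.range s := by
    intro x hx
    refine ⟨S.equivFin ⟨x, hx⟩, ?_⟩
    show ((S.equivFin.symm (S.equivFin ⟨x, hx⟩) : S) : ι) = x
    rw [Equiv.symm_apply_apply]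
  have hsinj : Function.Injective s := by
    intro a b hab
    exact S.equivFin.symm.injective (Subtype.ext hab)
  have he' : ∀ j, ∃ a, s a = e j := by
    intro j
    refine hrange (e j) ?_
    exact Finset.mem_union_left _ (Finset.mem_image_of_mem e (Finset.mem_univ j))
  choose e' he'' using he'
  have hq' : ∀ i, ∃ q' : FA S.card, mapF s q' = q i := by
    intro i
    refine alg_lift s (q i) ?_
    intro g hg x hx
    refine hrange _ ?_
    refine Finset.mem_union_right _ ?_
    refine Finset.mem_biUnion.2 ⟨i, Finset.mem_univ i, ?_⟩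
    refine Finset.mem_biUnion.2 ⟨g, hg, ?_⟩
    rw [List.mem_toFinset]
    exact List.mem_map_of_mem hx
  choose q' hq'' using hq'
  exact ⟨S.card, s, e', q', hsinj, he'', hq''⟩

/-! ### the isometry -/

section iso

variable {H G : Type} [Group H] [Group G]

theorem orthonormal_dl (φ : H → G) (hφ : Function.Injective φ) :
    Orthonormal ℂ fun h => (dl (φ h) : EllTwo G) := by
  refine ⟨fun h => norm_dl _, ?_⟩
  intro a b hab
  show ⟪(dl (φ a) : EllTwo G), dl (φ b)⟫_ℂ = 0
  rw [inner_dl, dl_ne]
  exact fun h => hab (hφ h)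

/-- extension by zero along an injective map -/
def extJ (φ : H → G) (hφ : Function.Injective φ) : EllTwo H →ₗᵢ[ℂ] EllTwo G :=
  (orthonormal_dl φ hφ).orthogonalFamily.linearIsometry

theorem extJ_dl (φ : H → G) (hφ : Function.Injective φ) (h : H) :
    extJ φ hφ (dl h) = dl (φ h) := by
  classical
  unfold extJ
  have h1 : (dl h : EllTwo H) = lp.single 2 h (1 : ℂ) := by
    unfold dl
    congr
  rw [h1, OrthogonalFamily.linearIsometry_apply_single]
  show (1 : ℂ) • (dl (φ h) : EllTwo G) = _
  rw [one_smul]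

theorem ext_dl {E : Type} [NormedAddCommGroup E] [NormedSpace ℂ E] (S T : EllTwo H →L[ℂ] E)
    (hST : ∀ h : H, S (dl h) = T (dl h)) : S = T := by
  classical
  ext f
  have h1 := lp.hasSum_single (E := fun _ : H => ℂ) (p := 2) (by norm_num) f
  have h2 := h1.mapL S
  have h3 := h1.mapL T
  refine h2.unique (h3.congr_fun ?_)
  intro h
  rw [single_eq_smul_dl, map_smul, map_smul, hST]

/-- `x'` restricts to `x` under the isometry -/
def Itw (φ : H → G) (hφ : Function.Injective φ) (x : EllTwo H →L[ℂ] EllTwo H)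
    (x' : EllTwo G →L[ℂ] EllTwo G) : Prop :=
  x' ∘L (extJ φ hφ).toContinuousLinearMap = (extJ φ hφ).toContinuousLinearMap ∘L x

variable {φ : H → G} {hφ : Function.Injective φ}

theorem itw_one : Itw φ hφ 1 1 := rfl

theorem itw_zero : Itw φ hφ 0 0 := by
  unfold Itw
  rw [ContinuousLinearMap.zero_comp, ContinuousLinearMap.comp_zero]

theorem itw_add {x y : EllTwo H →L[ℂ] EllTwo H} {x' y' : EllTwo G →L[ℂ] EllTwo G}
    (h1 : Itw φ hφ x x') (h2 : Itw φ hφ y y') : Itw φ hφ (x + y) (x' + y') := by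
  unfold Itw at *
  rw [ContinuousLinearMap.add_comp, ContinuousLinearMap.comp_add, h1, h2]

theorem itw_sub {x y : EllTwo H →L[ℂ] EllTwo H} {x' y' : EllTwo G →L[ℂ] EllTwo G}
    (h1 : Itw φ hφ x x') (h2 : Itw φ hφ y y') : Itw φ hφ (x - y) (x' - y') := by
  unfold Itw at *
  rw [ContinuousLinearMap.sub_comp, ContinuousLinearMap.comp_sub, h1, h2]

theorem itw_smul (c : ℂ) {x : EllTwo H →L[ℂ] EllTwo H} {x' : EllTwo G →L[ℂ] EllTwo G}
    (h1 : Itw φ hφ x x') : Itw φ hφ (c • x) (c • x') := by
  unfold Itw at *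
  rw [ContinuousLinearMap.smul_comp, ContinuousLinearMap.comp_smul, h1]

theorem itw_mul {x y : EllTwo H →L[ℂ] EllTwo H} {x' y' : EllTwo G →L[ℂ] EllTwo G}
    (h1 : Itw φ hφ x x') (h2 : Itw φ hφ y y') : Itw φ hφ (x * y) (x' * y') := by
  unfold Itw at *
  show (x' ∘L y') ∘L _ = _ ∘L (x ∘L y)
  rw [ContinuousLinearMap.comp_assoc, h2, ← ContinuousLinearMap.comp_assoc, h1,
    ContinuousLinearMap.comp_assoc]

theorem itw_inv {x : EllTwo H →L[ℂ] EllTwo H} {x' : EllTwo G →L[ℂ] EllTwo G}
    (hx : IsUnit x) (hx' : IsUnit x') (h1 : Itw φ hφ x x') :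
    Itw φ hφ (Ring.inverse x) (Ring.inverse x') := by
  unfold Itw at *
  have h2 : Ring.inverse x' ∘L x' = ContinuousLinearMap.id ℂ _ := Ring.inverse_mul_cancel x' hx'
  have h3 : x ∘L Ring.inverse x = ContinuousLinearMap.id ℂ _ := Ring.mul_inverse_cancel x hx
  calc Ring.inverse x' ∘L (extJ φ hφ).toContinuousLinearMap
      = Ring.inverse x' ∘L (((extJ φ hφ).toContinuousLinearMap ∘L x) ∘L Ring.inverse x) := by
        rw [ContinuousLinearMap.comp_assoc, h3, ContinuousLinearMap.comp_id]
    _ = (Ring.inverse x' ∘L x') ∘L ((extJ φ hφ).toContinuousLinearMap ∘L Ring.inverse x) := by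
        rw [← h1, ContinuousLinearMap.comp_assoc, ContinuousLinearMap.comp_assoc]
    _ = (extJ φ hφ).toContinuousLinearMap ∘L Ring.inverse x := by
        rw [h2, ContinuousLinearMap.id_comp]

theorem itw_n2 {x : EllTwo H →L[ℂ] EllTwo H} {x' : EllTwo G →L[ℂ] EllTwo G}
    (h1 : Itw φ hφ x x') (hone : φ 1 = 1) : n2 x = n2 x' := by
  unfold FF.n2
  have h2 : (dirac G : EllTwo G) = extJ φ hφ (dirac H) := by
    rw [dirac_eq, dirac_eq, extJ_dl, hone]
  have h3 : x' (extJ φ hφ (dirac H)) = extJ φ hφ (x (dirac H)) :=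
    congrArg (fun z : EllTwo H →L[ℂ] EllTwo G => z (dirac H)) h1
  rw [h2, h3, LinearIsometry.norm_map]

theorem star_inverse_one_sub {A : Type} [Ring A] [StarRing A] [Algebra ℂ A] [StarModule ℂ A]
    (x : A) (hx : IsSelfAdjoint x) :
    star (cay x) = Ring.inverse (1 + Complex.I • x) * (1 - Complex.I • x) := by
  unfold cay
  rw [star_mul, ← Ring.inverse_star, star_sub, star_add, star_one, star_smul, hx.star_eq]
  have h1 : star Complex.I = -Complex.I := Complex.conj_I
  rw [h1, neg_smul, sub_neg_eq_add, ← sub_eq_add_neg]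

theorem isUnit_one_add (x : EllTwo H →L[ℂ] EllTwo H) (hx : IsSelfAdjoint x) :
    IsUnit (1 + Complex.I • x) := by
  have h1 := cay_isUnit (-x) hx.neg
  rw [smul_neg, sub_neg_eq_add] at h1
  exact h1

theorem itw_imc {x : EllTwo H →L[ℂ] EllTwo H} {x' : EllTwo G →L[ℂ] EllTwo G}
    (hx : IsSelfAdjoint x) (hx' : IsSelfAdjoint x') (h1 : Itw φ hφ x x') :
    Itw φ hφ (imc x) (imc x') := by
  unfold imc
  rw [star_inverse_one_sub x hx, star_inverse_one_sub x' hx']
  unfold cay
  have hI := itw_smul Complex.I h1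
  have hp := itw_add itw_one hI
  have hm := itw_sub itw_one hI
  exact itw_smul _ (itw_sub (itw_mul hp (itw_inv (cay_isUnit x hx) (cay_isUnit x' hx') hm))
    (itw_mul (itw_inv (isUnit_one_add x hx) (isUnit_one_add x' hx') hp) hm))

theorem itw_evA {n : ℕ} {x : Fin n → EllTwo H →L[ℂ] EllTwo H}
    {x' : Fin n → EllTwo G →L[ℂ] EllTwo G} (h1 : ∀ i, Itw φ hφ (x i) (x' i)) (P : NP n) :
    Itw φ hφ (evA x P) (evA x' P) := by
  induction P using FreeAlgebra.induction with
  | grade0 c =>
    rw [AlgHom.commutes, AlgHom.commutes, Algebra.algebraMap_eq_smul_one,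
      Algebra.algebraMap_eq_smul_one]
    exact itw_smul c itw_one
  | grade1 i =>
    unfold evA
    rw [FreeAlgebra.lift_ι_apply, FreeAlgebra.lift_ι_apply]
    exact h1 i
  | mul a b ha hb =>
    rw [map_mul, map_mul]
    exact itw_mul ha hb
  | add a b ha hb =>
    rw [map_add, map_add]
    exact itw_add ha hb

theorem itw_leftReg (ψ : H →* G) (hψ : Function.Injective ψ) (h : H) :
    Itw ψ hψ (leftReg H h) (leftReg G (ψ h)) := by
  unfold Itw
  refine ext_dl _ _ fun k => ?_
  show leftReg G (ψ h) (extJ ψ hψ (dl k)) = extJ ψ hψ (leftReg H h (dl k))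
  rw [extJ_dl, leftReg_dl, leftReg_dl, extJ_dl, map_mul]

end iso

theorem lamG_single {G : Type} [Group G] (g : G) (c : ℂ) :
    lamG G (MonoidAlgebra.single g c) = c • leftReg G g := by
  unfold lamG
  rw [MonoidAlgebra.lift_single]
  rfl

theorem lamG_star' {G : Type} [Group G] (b : MonoidAlgebra ℂ G) :
    lamG G (fstG b) = star (lamG G b) := by
  induction b using MonoidAlgebra.induction_linear with
  | zero => rw [fstG_zero, map_zero, star_zero]
  | add x y hx hy => rw [fstG_add, map_add, map_add, star_add, hx, hy]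
  | single g c =>
    rw [fstG_single, lamG_single, lamG_single, star_smul, star_leftReg]
    rfl

theorem itw_lam {ι : Type} {M : ℕ} (s : Fin M → ι) (hs : Function.Injective s) (f : FA M) :
    Itw (FreeGroup.map s) (FreeGroup.map_injective hs) (lamA M f)
      (lamG (FreeGroup ι) (mapF s f)) := by
  induction f using MonoidAlgebra.induction_linear with
  | zero =>
    rw [map_zero, map_zero, map_zero]
    exact itw_zero
  | add x y hx hy =>
    rw [map_add, map_add, map_add]
    exact itw_add hx hy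
  | single g c =>
    rw [lamA_single, mapF_single, lamG_single]
    exact itw_smul c (itw_leftReg (FreeGroup.map s) (FreeGroup.map_injective hs) g)

theorem n2_mapF' {ι : Type} {k M : ℕ} (s : Fin M → ι) (hs : Function.Injective s)
    (q : Fin (k + 1) → FA M) (hq : ∀ i, fst' (q i) = q i) (P : NP (k + 1)) (j : Fin M) :
    n2 (leftReg (FreeGroup (Fin M)) (FreeGroup.of j) -
        evA (fun i => imc (lamA M (q i))) P) =
      n2 (leftReg (FreeGroup ι) (FreeGroup.of (s j)) -
        evA (fun i => imc (lamG (FreeGroup ι) (mapF s (q i)))) P) := by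
  have hsa : ∀ i, IsSelfAdjoint (lamA M (q i)) := by
    intro i
    show star (lamA M (q i)) = lamA M (q i)
    rw [← lamA_fst, hq i]
  have hsa' : ∀ i, IsSelfAdjoint (lamG (FreeGroup ι) (mapF s (q i))) := by
    intro i
    show star (lamG (FreeGroup ι) (mapF s (q i))) = lamG (FreeGroup ι) (mapF s (q i))
    rw [← lamG_star', fstG_mapF, hq i]
  have h1 := itw_leftReg (FreeGroup.map s) (FreeGroup.map_injective hs) (FreeGroup.of j)
  rw [FreeGroup.map.of] at h1
  have h2 : Itw (FreeGroup.map s) (FreeGroup.map_injective hs)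
      (evA (fun i => imc (lamA M (q i))) P)
      (evA (fun i => imc (lamG (FreeGroup ι) (mapF s (q i)))) P) :=
    itw_evA (fun i => itw_imc (hsa i) (hsa' i) (itw_lam s hs (q i))) P
  exact itw_n2 (itw_sub h1 h2) (map_one _)

end Red

export Red (exists_finite' mapF_fst' n2_mapF')

end Pool.Agent.H710R2.GP
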